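import Pool.Agent.Q285.EQ.Basic

/-!
# Popescu's conjecture and exponentials of smoothed sums of Frobenius elements

`k` a number field, `S` a finite set of finite places, `φ v ∈ A` (the Frobenius elements, `A` the Galois group
written additively), `r ≥ 0`, `c ψ = lim_{s → 0} s^{-r} L_S(s, ψ)`. The element
`∑_ψ c ψ e_{ψ̄}` of `ℂ[A]` (Popescu's `R(η')`) is the limit, with error `O(1/T)`, of
`T^r e^{-rΛ} exp(∑_{v ∉ S, n ≥ 1} (1/n) e^{iγ n log Nv/T}/Γ(1 + n log Nv/T) [-n φ v])`.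
-/

set_option autoImplicit false

namespace Pool.Agent.Results.MP_1322f0_nt.GroupRingExponential

open Filter Topology Asymptotics NumberField IsDedekindDomain Pool.Agent.Q45.ML

section

variable {k : Type} [Field k] [NumberField k] {S : Finset (HeightOneSpectrum (𝓞 k))}
  {A : Type} [AddCommGroup A]

/-- the finite places of `k` outside `S` -/
abbrev Pl (k : Type) [Field k] [NumberField k] (S : Finset (HeightOneSpectrum (𝓞 k))) : Type :=
  {v : HeightOneSpectrum (𝓞 k) // v ∉ S}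

/-- the number of elements of the residue field -/
noncomputable def norm (v : Pl k S) : ℝ := Ideal.absNorm v.1.asIdeal

/-- the weight `(1/n) e^{iγ n log Nv/T} / Γ(1 + n log Nv/T)` of the pair `(v, n)`, `n = x.2 + 1` -/
noncomputable def weight (γ T : ℝ) (x : Pl k S × ℕ) : ℂ :=
  1 / (x.2 + 1) * (Complex.exp ((γ * ((x.2 + 1) * Real.log (norm x.1) / T) : ℝ) * Complex.I) /
    (Real.Gamma (1 + (x.2 + 1) * Real.log (norm x.1) / T) : ℂ))

/-- the coefficient at `a` of the group ring element `∑_{v, n} weight(v, n) [n φ v]` -/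
noncomputable def coef (φ : Pl k S → A) (γ T : ℝ) (a : A) : ℂ :=
  ∑' x : {x : Pl k S × ℕ // (x.2 + 1) • φ x.1 = a}, weight γ T (x : Pl k S × ℕ)

/-- the constant `Λ(γ) = ∫_0^∞ (e^{-t} - e^{iγt}/Γ(1+t)) dt/t` -/
noncomputable def Lam (γ : ℝ) : ℂ := Pool.Agent.W187.UR.Lam γ

/-- the coefficient at `a` of `∑_ψ c ψ e_{ψ̄}`, where `e_ψ = (1/|A|) ∑_b ψ(b) [-b]` -/
noncomputable def stark [Fintype A] (c : AddChar A ℂ → ℂ) (a : A) : ℂ :=
  1 / Fintype.card A * ∑ ψ : AddChar A ℂ, c ψ * ψ a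

/-- the coefficient at `a` of `T^r e^{-rΛ} exp(∑_b coef b [-b])`, the exponential in `ℂ[A]` being taken
character by character -/
noncomputable def approx [Fintype A] (φ : Pl k S → A) (r : ℕ) (γ T : ℝ) : A → ℂ :=
  stark fun ψ => (T : ℂ) ^ r * Complex.exp (-(r * Lam γ)) * Complex.exp (∑ b, coef φ γ T b * ψ b)

theorem weight_eq (γ T : ℝ) (x : Pl k S × ℕ) :
    weight γ T x = Pool.Agent.Q285.EQ.ker (fun v : Pl k S => norm v) 0 γ T x := by
  unfold weight Pool.Agent.Q285.EQ.ker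
  simp

theorem coef_eq (φ : Pl k S → A) (γ T : ℝ) (a : A) :
    coef φ γ T a = Pool.Agent.Q285.EQ.coef (fun v : Pl k S => norm v) φ 0 γ T a := by
  unfold coef Pool.Agent.Q285.EQ.coef
  simp only [weight_eq]

theorem two_le (v : Pl k S) : 2 ≤ norm v := two_le_nrm v.1

theorem summ {σ : ℝ} (hσ : 1 < σ) : Summable fun v : Pl k S => norm v ^ (-σ) :=
  (nrm_summable hσ).subtype _

theorem char_rate [Fintype A] (φ : Pl k S → A) {L : AddChar A ℂ → ℂ → ℂ}
    (hmer : ∀ ψ, ∀ x : ℝ, 0 ≤ x → x ≤ 1 → MeromorphicAt (L ψ) (x : ℂ))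
    (hL : ∀ ψ : AddChar A ℂ, ∀ s : ℂ, 1 < s.re →
      HasProd (fun v : Pl k S => (1 - ψ (φ v) * (norm v : ℂ) ^ (-s))⁻¹) (L ψ s))
    (r : ℕ) {c : AddChar A ℂ → ℂ}
    (hc : ∀ ψ, Tendsto (fun s : ℂ => L ψ s / s ^ r) (𝓝[≠] 0) (𝓝 (c ψ)))
    {γ : ℝ} (hγ : Real.pi / 2 < γ) (ψ : AddChar A ℂ) :
    (fun T : ℝ => (T : ℂ) ^ r * Complex.exp (-(r * Lam γ)) * Complex.exp (∑ b, coef φ γ T b * ψ b)
      - c ψ) =O[atTop] (fun T : ℝ => 1 / T) := by
  have E := Pool.Agent.Q285.EQ.eul_char (q := fun v : Pl k S => norm v) φ two_le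
    (fun σ hσ => summ hσ) ψ
  obtain ⟨m, l, h1, h2, h3⟩ := E.lawC (F := L ψ) (s₀ := 0) (by norm_num)
    (fun x hx hx1 => hmer ψ x hx (by linarith))
    (fun s hs => by simpa using hL ψ s (by linarith)) hγ
  have h4 := Pool.Agent.Q285.EQ.taylor_rate (r := r) (c := c ψ) (hmer ψ 0 le_rfl zero_le_one) h1 h2 h3
    (by
      have := hc ψ
      simpa [div_eq_mul_inv] using this)
  have h5 := h4.const_mul_left (Complex.exp (-(r * Lam γ)))
  refine h5.congr' ?_ EventuallyEq.rfl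
  filter_upwards [eventually_gt_atTop 0] with T hT
  have h6 : ∑ b, coef φ γ T b * ψ b = smooth (fun v : Pl k S => norm v)
      (fun v (_ : Fin 1) => ψ (φ v)) 0 γ T := by
    rw [← Pool.Agent.Q285.EQ.sum_coef φ two_le (fun σ hσ => summ hσ) 0 γ hT ψ]
    simp only [coef_eq]
  rw [h6]
  have h7 : Complex.exp (-(r * Lam γ)) * Complex.exp (r * Lam γ) = 1 := by
    rw [← Complex.exp_add, neg_add_cancel, Complex.exp_zero]
  unfold Lam at h7 ⊢
  rw [Int.cast_natCast, zpow_natCast]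
  linear_combination (-c ψ) * h7

end

theorem result {k : Type} [Field k] [NumberField k] (S : Finset (HeightOneSpectrum (𝓞 k)))
    {A : Type} [AddCommGroup A] [Fintype A] (φ : Pl k S → A) (L : AddChar A ℂ → ℂ → ℂ)
    (hmer : ∀ ψ, ∀ x : ℝ, 0 ≤ x → x ≤ 1 → MeromorphicAt (L ψ) (x : ℂ))
    (hL : ∀ ψ : AddChar A ℂ, ∀ s : ℂ, 1 < s.re →
      HasProd (fun v : Pl k S => (1 - ψ (φ v) * (norm v : ℂ) ^ (-s))⁻¹) (L ψ s))
    (r : ℕ) (c : AddChar A ℂ → ℂ)
    (hc : ∀ ψ, Tendsto (fun s : ℂ => L ψ s / s ^ r) (𝓝[≠] 0) (𝓝 (c ψ)))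
    {γ : ℝ} (hγ : Real.pi / 2 < γ) :
    -- absolute convergence
    (∀ T : ℝ, 0 < T → Summable fun x : Pl k S × ℕ => ‖weight γ T x‖) ∧
    -- `approx` is `T^r e^{-rΛ}` times the exponential of the group ring element `∑_b coef b [-b]`
    (∀ T : ℝ, ∀ χ : AddChar A ℂ, ∑ a, approx φ r γ T a * χ a =
      (T : ℂ) ^ r * Complex.exp (-(r * Lam γ)) * Complex.exp (∑ b, coef φ γ T b * χ (-b))) ∧
    -- the limit, with rate
    (fun T : ℝ => approx φ r γ T - stark c) =O[atTop] (fun T : ℝ => 1 / T) ∧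
    -- the integrality criterion
    ∀ (V : Type) [NormedAddCommGroup V] [NormedSpace ℂ V] [FiniteDimensional ℂ V]
      (R : V →ₗ[ℂ] (A → ℂ)) (_ : Function.Injective R) (η : V) (_ : R η = stark c)
      (M : AddSubgroup V) [DiscreteTopology M],
      (∀ w : ℂ, List.TFAE [w • η ∈ M,
        Tendsto (fun T : ℝ => Metric.infDist (w • approx φ r γ T) (R '' M)) atTop (𝓝 0),
        ∃ t : ℕ → ℝ, Tendsto t atTop atTop ∧
          Tendsto (fun i => Metric.infDist (w • approx φ r γ (t i)) (R '' M)) atTop (𝓝 0)]) ∧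
      ((∃ D : ℕ, 0 < D ∧ D • η ∈ M) ↔ ∃ D : ℕ, 0 < D ∧ ∃ t : ℕ → ℝ, Tendsto t atTop atTop ∧
        Tendsto (fun i => Metric.infDist (D • approx φ r γ (t i)) (R '' M)) atTop (𝓝 0)) := by
  have hrate : (fun T : ℝ => approx φ r γ T - stark c) =O[atTop] (fun T : ℝ => 1 / T) := by
    refine isBigO_pi.2 fun a => ?_
    have h1 : (fun T : ℝ => (1 / Fintype.card A : ℂ) * ∑ ψ : AddChar A ℂ,
        (((T : ℂ) ^ r * Complex.exp (-(r * Lam γ)) * Complex.exp (∑ b, coef φ γ T b * ψ b) - c ψ) *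
          ψ a)) =O[atTop] (fun T : ℝ => 1 / T) := by
      refine IsBigO.const_mul_left (IsBigO.fun_sum fun ψ _ => ?_) _
      have := (char_rate φ hmer hL r hc hγ ψ).const_mul_left (ψ a)
      refine this.congr (fun T => ?_) fun _ => rfl
      ring
    refine h1.congr (fun T => ?_) fun _ => rfl
    unfold approx stark
    simp only [sub_mul, Finset.sum_sub_distrib, mul_sub, Pi.sub_apply]
  have hlim : Tendsto (fun T : ℝ => approx φ r γ T) atTop (𝓝 (stark c)) := by
    have h1 : Tendsto (fun T : ℝ => approx φ r γ T - stark c) atTop (𝓝 0) :=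
      hrate.trans_tendsto (tendsto_const_nhds.div_atTop tendsto_id)
    simpa using h1.add_const (stark c)
  refine ⟨fun T hT => ?_, fun T ψ => ?_, hrate, ?_⟩
  · simp only [weight_eq]
    exact Pool.Agent.Q285.EQ.ker_summable φ two_le (fun σ hσ => summ hσ) 0 γ hT
  · have h0 : (Fintype.card A : ℂ) ≠ 0 := by exact_mod_cast Fintype.card_ne_zero
    unfold approx stark
    set f : AddChar A ℂ → ℂ := fun ψ => (T : ℂ) ^ r * Complex.exp (-(r * Lam γ)) *
      Complex.exp (∑ b, coef φ γ T b * ψ b) with hf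
    have hfψ : (T : ℂ) ^ r * Complex.exp (-(r * Lam γ)) *
        Complex.exp (∑ b, coef φ γ T b * ψ (-b)) = f ψ⁻¹ := by
      simp only [hf, AddChar.inv_apply]
    rw [hfψ]
    have h1 : ∀ χ : AddChar A ℂ, ∑ a, χ a * ψ a = if χ = ψ⁻¹ then (Fintype.card A : ℂ) else 0 := by
      intro χ
      have h2 : ∀ a, χ a * ψ a = (χ * ψ) a := fun a => (AddChar.mul_apply _ _ _).symm
      simp only [h2]
      rw [AddChar.sum_eq_ite]
      congr 1
      exact propext (eq_inv_iff_mul_eq_one (a := χ) (b := ψ)).symm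
    calc ∑ a, (1 / (Fintype.card A : ℂ) * ∑ χ : AddChar A ℂ, f χ * χ a) * ψ a
        = 1 / (Fintype.card A : ℂ) * ∑ χ : AddChar A ℂ, f χ * ∑ a, χ a * ψ a := by
          simp only [Finset.mul_sum, Finset.sum_mul]
          rw [Finset.sum_comm]
          refine Finset.sum_congr rfl fun χ _ => Finset.sum_congr rfl fun a _ => ?_
          ring
      _ = f ψ⁻¹ := by
          simp only [h1, mul_ite, mul_zero, Finset.sum_ite_eq', Finset.mem_univ, if_true]
          field_simp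
  · intro V _ _ _ R hR η hη M _
    have hcl : IsClosed (R '' (M : Set V)) :=
      (LinearMap.isClosedEmbedding_of_injective (LinearMap.ker_eq_bot.2 hR)).isClosedMap _
        (AddSubgroup.isClosed_of_discrete)
    have hne : (R '' (M : Set V)).Nonempty := ⟨R 0, 0, M.zero_mem, rfl⟩
    have hmain : ∀ w : ℂ, List.TFAE [w • η ∈ M,
        Tendsto (fun T : ℝ => Metric.infDist (w • approx φ r γ T) (R '' M)) atTop (𝓝 0),
        ∃ t : ℕ → ℝ, Tendsto t atTop atTop ∧
          Tendsto (fun i => Metric.infDist (w • approx φ r γ (t i)) (R '' M)) atTop (𝓝 0)] := by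
      intro w
      have h1 := closed_tfae hcl hne (hlim.const_smul w)
      have e : w • stark c ∈ R '' (M : Set V) ↔ w • η ∈ M := by
        rw [← hη, ← map_smul]
        exact hR.mem_set_image
      rw [e] at h1
      exact h1
    refine ⟨hmain, exists_congr fun D => and_congr_right fun _ => ?_⟩
    have h2 := (hmain D).out 0 2
    have e1 : ∀ x : V, ((D : ℂ)) • x = D • x := fun x => Nat.cast_smul_eq_nsmul ℂ D x
    have e2 : ∀ x : A → ℂ, ((D : ℂ)) • x = D • x := fun x => Nat.cast_smul_eq_nsmul ℂ D x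
    simp only [e1, e2] at h2
    exact h2

end Pool.Agent.Results.MP_1322f0_nt.GroupRingExponential
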